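import Pool.Agent.Run7.h132.FJ.Tower

/-!
# Extensions whose kernels are virtually subgroups of products of free-by-solvable groups

Problem `MP_16fe43_al`, question Q1 (vanishing of the Whitehead group, of the reduced projective class group
and of the negative K-groups).

`C` is any class of groups with the closure properties `ClosedE C` which contains the solvable groups and
the groups `F ⋊ ℤ` for all free groups `F` and all automorphisms of `F`. All this is known for the class of
the groups whose wreath products with finite groups satisfy the K-theoretic Farrell-Jones conjecture with
coefficients in additive categories (Wegner for the solvable groups; Bestvina-Fujiwara-Wigglesworth and
Brück-Kielak-Wu for the groups `F ⋊ ℤ`). For torsion-free groups `G` in this class the groups `Wh(G)`, the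
reduced projective class group of `ℤG` and `K_n(ℤG)`, `n ≤ -1`, vanish, which is the assertion of Q1. So Q1
holds for the torsion-free groups `G` below.

This theorem of helper132 was first handed in for the Borel conjecture (`MP_2a0850_gt.KernelsInProducts`).

`Pool.Agent.Run7.h132.FJ.VirtProd N` says that a subgroup of finite index of `N` embeds in a finite direct
product of groups which have free normal subgroups (of any rank) with solvable quotients. There is no
finiteness condition on `N`. Such groups `N` are, for instance,

* all subgroups of finite direct products of free groups and surface groups (the commutator subgroup of a
  surface group is free), like the groups of Stallings and Bieri, and many fundamental groups of compact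
  Kähler manifolds; all finitely generated residually free groups, because these embed in finite direct
  products of limit groups, which are free-by-nilpotent;
* the fundamental groups of the compact 3-manifolds which are finitely covered by surface bundles over
  the circle: by the theorems of Agol, Wise, Przytycki and Wise these are the aspherical compact 3-manifolds
  except for some closed graph manifolds (Seifert manifolds are covered, too);
* virtually solvable groups, and the finite direct products of all these groups.

`Pool.Agent.Run7.h132.FJ.Tower C N` says that `N` has an ascending series of normal subgroups of `G` with
such factors, or factors which are locally finite, or which have a trivial centre and an automorphism group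
in `C` (for instance lattices to which Mostow's theorem applies, mapping class groups).

So the fundamental groups of the total spaces of iterated fibre bundles, with fibres that are surfaces,
infrasolvmanifolds, 3-manifolds as above, locally symmetric spaces satisfying Mostow rigidity or
products of such manifolds, over an aspherical base with a fundamental group in `C`, are in
`C` and satisfy Q1; no condition is imposed on the monodromy.

Outline of the proof.

* Let `L` be a subgroup of a finite direct product of free groups `F i` and let the number of the factors be
  minimal modulo the centre of `L`. Then the subgroups `L i = L ∩ F i` and their centralizers `L ∩ ∏ F j`,
  `j ≠ i`, are permuted by all automorphisms of `L`: for an element `x` of `L` the elements which commute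
  with all commutators of elements of the centralizer of `x` are those whose support is contained in the
  support of `x`. This uses that commuting is transitive and that centralizers are malnormal in
  free groups. Hence a subgroup of finite index of `G` has a normal series from `L` to the centre of `L`
  whose factors are free groups, even if the groups `L / ∏ L i` are wild.
* If a subgroup `H` of finite index of `N` embeds in a direct product of groups which are free-by-(solvable
  of length at most `k`), then `N₁`, the intersection of the conjugates of `H` in `G`, is a normal subgroup
  of `G` with `N / N₁` locally finite, and the `k`-th derived subgroup of `N₁` is a subgroup of a direct
  product of free groups.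
-/

set_option autoImplicit false

namespace Pool.Agent.Results.MP_16fe43_al.KernelsInProducts

open Pool.Agent.Y110.FJ Pool.Agent.Run7.h132.FJ

/-- Let `C` be a class of groups with the closure properties `ClosedE C` which contains all groups
`F ⋊ ℤ`, `F` free, and all solvable groups. Let `N` be a normal subgroup of `G` with `G ⧸ N` in `C`. If
(1) a subgroup of finite index of `N` embeds in a finite direct product of free-by-solvable groups, or
(2) `N` has an ascending series of normal subgroups of `G` whose factors are as in (1), or locally finite,
or have a trivial centre and a group of automorphisms in `C`, then `G` is in `C`. -/
theorem result (C : ∀ (G : Type) [Group G], Prop) (hC : ClosedE C)
    (hF : ∀ (X : Type) (α : MulAut (FreeGroup X)),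
      C (FreeGroup X ⋊[zpowersHom (MulAut (FreeGroup X)) α] Multiplicative ℤ))
    (hS : ∀ (S : Type) [Group S], Group.IsSolvable S → C S)
    (G : Type) [Group G] (N : Subgroup G) [N.Normal] (hQ : C (G ⧸ N)) :
    (VirtProd N → C G) ∧ (Tower C N → C G) :=
  ⟨fun h => vp_ext hC hF hS N h hQ, fun h => tower_ext hC hF hS N h hQ⟩

end Pool.Agent.Results.MP_16fe43_al.KernelsInProducts
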