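import Pool.Agent.Run7.h550.GW.Main

/-!
# Extensions whose kernel is a graph product with permuted vertex groups

Problem `MP_28303a_al`, question Q1 (vanishing of the negative K-groups of group rings of torsion-free
groups over regular rings).

`C` is any class of groups with the closure properties `ClosedE C`, all of which are known for the class of
the groups whose wreath products with finite groups satisfy the K-theoretic Farrell-Jones conjecture with
coefficients in additive categories. For torsion-free groups `G` in this class and regular rings `R` the
groups `K_n(RG)`, `n ≤ -1`, vanish (Bartels-Lück-Reich), which is the assertion of Q1. So Q1 holds for all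
torsion-free groups `G` as below, if the groups `A v ⟨q⟩` are in this class.

This theorem of helper550 was first handed in for the Full Farrell-Jones Conjecture
(`MP_490288_al.GraphProductKernels`).

Let `N` be a normal subgroup of `G` with `G ⧸ N` in `C`, let `N` be the graph product of its subgroups
`A v`, `v ∈ V`, along a graph `Γ` on an arbitrary, possibly infinite, set `V`, and let `Q` be a subgroup
of `G` with `G = N Q` which acts on `V` by automorphisms of the graph, such that `q (A v) q⁻¹ = A (q v)`
for all `q ∈ Q`. If `A v ⟨q⟩` is in `C` whenever `q ∈ Q` fixes `v`, then `G` is in `C`.

The vertex groups are arbitrary and may be different, they may have relations with `Q` (the group `Q`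
may meet `N`, and elements of `Q` which fix `v` may act on `A v` by any automorphisms), there is no
restriction on the orbits of `Q` on the graph, and the extension need not split. The graph-wreath
products `A ≀_Γ Q` of Kropholler and Martino (the semidirect product of the graph product of copies
of `A` and a group `Q` acting on `Γ`) are the case where `A v ⟨q⟩` is a quotient of `A × ℤ` or `A × ℤ/k`; so
`C` is closed under graph-wreath products. Wreath products and semidirect products with free
products of copies of `A` are the cases of complete graphs and of graphs without edges.

Outline of the proof. The group `N` has retractions onto the `A v`; let `K` be the intersection of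
their kernels. The group `W = N ⧸ K` is the restricted direct product of the `A v`, and `G ⧸ K` is in `C`
(starting library). Let `g = n q` and let `E` be a finite subset of `N`. Let `S` be a finite set of
vertices such that `n`, `E` and `q E q⁻¹` are in the graph product along `S`. By the theorem of
Hrushovski the partial isomorphism of `S` given by `q` extends to an automorphism `τ` of a finite graph
`T` which contains `S` as an induced subgraph. The graph product along `S` embeds in the graph product
`P₀` of copies of `W` along `T` (every `A v` is a retract of `W`), and the conjugation by `q` becomes the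
automorphism `σ` of `P₀` which permutes the copies of `W` by `τ` and acts on `W` as the element `q` of `G ⧸ K`.
So by the realization criterion (starting library) it remains to see that `P₀ ⋊ ℤ` is in `C`. A power of
`σ` maps every copy of `W` to itself, and for such automorphisms `P₀ ⋊ ℤ` is an amalgamated product of the
groups of `T` without one vertex `v` and of the star of `v`, with a homomorphism to the product of the
first group with `W ⋊ ℤ` which is injective on both factors; this gives the claim by induction.
-/

set_option autoImplicit false

namespace Pool.Agent.Results.MP_28303a_al.GraphProductKernels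

open Pool.Agent.Y110.FJ (ClosedE)

/-- The subgroup `N` of `G` is the graph product of its subgroups `A v` along the graph `Γ`: it is
generated by them, elements of `A v` and `A w` commute for adjacent `v` and `w`, and homomorphisms of
the groups `A v` to a group for which the images of the groups of adjacent vertices commute extend to a
homomorphism of `N`. -/
structure IsGraphProduct {G V : Type} [Group G] (Γ : SimpleGraph V) (A : V → Subgroup G)
    (N : Subgroup G) : Prop where
  le : ∀ v, A v ≤ N
  generate : N ≤ ⨆ v, A v
  comm : ∀ v w, Γ.Adj v w → ∀ a ∈ A v, ∀ b ∈ A w, a * b = b * a
  univ : ∀ (H : Type) [Group H] (f : ∀ v, A v →* H),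
    (∀ v w, Γ.Adj v w → ∀ (a : A v) (b : A w), f v a * f w b = f w b * f v a) →
    ∃ φ : N →* H, ∀ v (a : A v), φ ⟨a, le v a.2⟩ = f v a

theorem result (C : ∀ (G : Type) [Group G], Prop) (hC : ClosedE C)
    (G V : Type) [Group G] (N Q : Subgroup G) [N.Normal] [MulAction Q V]
    (Γ : SimpleGraph V) (A : V → Subgroup G) (hN : IsGraphProduct Γ A N) (hNQ : N ⊔ Q = ⊤)
    (hΓ : ∀ (q : Q) (v w : V), Γ.Adj v w → Γ.Adj (q • v) (q • w))
    (hconj : ∀ (q : Q) (v : V), ∀ x ∈ A v, (q : G) * x * (q : G)⁻¹ ∈ A (q • v))
    (hstab : ∀ (q : Q) (v : V), q • v = v → C ↥(A v ⊔ Subgroup.zpowers (q : G)))
    (hQ : C (G ⧸ N)) : C G := by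
  refine Run7.h550.GW.gpw_main (Γ := Γ) (A := A) hC ⟨hN.le, ?_, hN.comm, hN.univ⟩ hNQ hΓ hconj ?_ hQ
  · intro M hM
    exact hN.generate.trans (iSup_le hM)
  · intro q v hqv
    have hle : A v ≤ A v ⊔ Subgroup.zpowers (q : G) := le_sup_left
    refine ⟨↥(A v ⊔ Subgroup.zpowers (q : G)), inferInstance, Subgroup.inclusion hle,
      ⟨(q : G), Subgroup.mem_sup_right (Subgroup.mem_zpowers (q : G))⟩, hstab q v hqv,
      Subgroup.inclusion_injective hle, ?_⟩
    intro a a' haa
    exact Subtype.ext haa

end Pool.Agent.Results.MP_28303a_al.GraphProductKernels
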