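import Mathlib
import Pool.Agent.Run7.h370.TY.ElemUse
import Pool.Agent.Run7.h370.TY.Tower
import Pool.Agent.R299.CRY2.Main

/-!
# The crystalline Tate conjecture for abelian varieties whose slopes are nondegenerate modulo a prime,
and for the ordinary ones with CM fields with nonsquare products

Let `E k` be finitely many CM fields and `u k i`, `i : I k`, finitely many integral functions on the
complex embeddings of `E k` with `u k i (conj φ) = - u k i φ`. They will be the deviations of the slopes
from their mean, up to a factor. Nothing is assumed about the Galois groups of the fields. Different
fields are flipped (`FieldsFlipped`): for complex embeddings `φ` of `E k` and `ψ` of `E l`, `k ≠ l`,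
some automorphism of `ℂ` fixes one of them and maps the other one to its complex conjugate. This is
no condition if there is only one field, and it is true if the normal closures of the fields are
linearly disjoint. For each `k` we assume one of the following two conditions (`IsNondegenerate`):

1. (`NondegenerateModulo`) There are a prime number `r` and a group `H` of automorphisms of `ℂ` each
  of which acts on the set of the embeddings `φ` of `E k` with an order that is a power of `r` (so this
  is any subgroup of `r`-power order of the Galois group of the normal closure, for instance a Sylow
  subgroup, with any orbits), such that: if `b i` are functions on the embeddings with values in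
  `ℤ / r`, invariant under `H`, with `b i (conj φ) = - b i φ` and
  `∑ i, ∑ φ, b i φ * u k i (g φ) = 0` for all automorphisms `g` of `ℂ`, the sum over representatives `φ`
  of the pairs of conjugate embeddings, then all `b i` are zero. So for each pair of conjugate orbits
  of `H` there is one unknown number modulo `r` for each `i`, and the condition is that the linear
  equations for them, one for each `g`, have only the trivial solution.
2. (`NonsquareProducts`) There is only one function `u k i`, **all of its values are odd** (for
  instance `1` and `- 1`, the case of ordinary abelian varieties), and there is a number `ε` in `E k` with
  `conj ε = - ε` such that for all nonempty sets `B` of complex embeddings `φ` of `E k` which consist of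
  an even number of pairs of conjugate embeddings, and for which the number of the translates under
  the automorphisms of `ℂ` is odd (so `B` is stable under a Sylow 2-subgroup `P` of the Galois group),
  the product of the numbers `φ ε`, `φ ∈ B`, is not the square of an algebraic number of odd degree. In
  other words, some element of `P` acts on `B` as an odd permutation. This is a condition on the field
  only.

The second part of the theorem says that the condition on the field is satisfied (`NonsquareNorms`)
if the field is an extension of 2-power degree of a field `R` whose normal closure over `ℚ` has odd
degree, and if for all nonempty sets `S` of complex embeddings of `R` (with an even number of elements,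
if the field is quadratic over `R`) the product of the numbers `σ (N ε)`, `σ ∈ S`, is not the square of
an algebraic number of odd degree, where `N ε` is the norm of `ε` to `R`, for some `ε` with
`conj ε = - ε`. For `R = ℚ` the condition is that the norm of `ε` is not the square of a rational number
(if the degree of the field is a power of `2` and at least `4`).

Over an algebraic closure of the field with `p` elements each abelian variety is isogenous to the
reduction of an abelian variety of CM type (Honda, Tate). So an abelian variety over the field with
`p ^ a` elements is modelled by `RedAV`: a finite product of CM types `(E i, Φ i)` with Weil numbers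
`π i ∈ E i` that satisfy the formula of Shimura and Taniyama; its cohomology of degree `n`, with
coefficients in an algebraically closed field `Ω`, consists of the alternating `n`-forms on
`Ω ⊗ H_1`, on which the Frobenius endomorphism acts by `π`. We fix an isomorphism `ν` of the algebraic
closure of `ℚ_p` with `ℂ`; it defines a `p`-adic valuation of `ℂ`, with the value one at `p`.

Let `𝒞` (`OfSlopes`) be the class of the abelian varieties `Y` each of whose factors is supersingular or
has a Frobenius endomorphism some power of which (with exponent `s`, say) is, for some `k` and `i`, a
number `x` in `E k` whose slopes are given by `u k i`: `2 ord_p (φ x) - s a = s b k * u k i φ` for all `φ`,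
where the real number `b k ≠ 0` depends only on `Y` and `k`. The class contains all products of powers
of its members, and the products of its members with supersingular abelian varieties. If
`u k i = 1` on a CM type `Φ` and `- 1` outside of it, then for `b k = a` these are the ordinary abelian
varieties with the CM type `Φ`.

The conclusion (`CrystallineTate`). Let `K₀` be the fraction field of the ring of Witt vectors of the
field with `Q = (p ^ a) ^ s` elements, with its Frobenius automorphism `σ`; let `V₀` be the dual space of
the first crystalline cohomology group of `Y` with coefficients in `K₀`, with the semilinear
endomorphism `Ψ` dual to the crystalline Frobenius endomorphism, and the linear Frobenius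
endomorphism `F₀ = Ψ ^ (a * s)`. The crystalline cohomology group `H^{2m}(Y)` is the space of
alternating forms `f` of degree `2 m` on `V₀`; the crystalline Frobenius endomorphism maps `f` to
`v ↦ σ (f (Ψ v))`. Over an algebraically closed field `Ω` that contains `K₀` the space `V₀` is
identified with `Ω ⊗ H_1`, where `F₀` is the multiplication by `π ^ s` (`IsCrystalline`; the theorem holds
for all fields `K₀` with an automorphism `σ` whose power `a * s` is trivial). Let `Cyc ⊆ H^{2m}(Y)` be
the set of the classes of algebraic cycles of codimension `m` over the field with `Q` elements. Then
for all `Y` in `𝒞`, all `s` and `m`:

* each class `f` in `H^{2m}(Y)` with `Fr f = Q ^ m f` is a linear combination of elements of `Cyc` with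
  coefficients in `K₀`, and
* each class `f` that is multiplied by `p ^ m` by the crystalline Frobenius endomorphism is a linear
  combination of elements of `Cyc` with coefficients in the fixed field of `σ`, the field of `p`-adic
  numbers.

The theorem uses of `Cyc` only that the crystalline Frobenius endomorphism multiplies its elements by
`p ^ m`, and (`ContainsAlg`) that its linear span over `K₀` contains each class `g` with
`Fr g = Q ^ m g` that belongs, over `Ω`, to the smallest system `Alg` of cohomology classes of abelian
varieties over finite fields that contains the Tate classes of degree two (which are algebraic by the
theorem of Tate) and the reductions of the Weil classes of imaginary quadratic fields on abelian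
fourfolds and sixfolds of split Weil type (Markman), and that is stable under linear combinations, cup
products, pull-backs along homomorphisms and push-forwards along projections.

The starting files contain criteria of this kind: `PrimePowerCentre` and `OddClasses` of
MP_0d42ed_ag (where the `r`-group is transitive on the pairs of conjugate embeddings, or more generally
on those of a class of embeddings that are not flipped; they contain the second condition for the
fields of 2-power degree, in the form that some automorphism acts as an odd permutation of the
embeddings), `OneFrobeniusSignature` and `FrobeniusPrimePower` (odd `r`, transitive on the embeddings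
over those of an imaginary quadratic field), `OneFrobeniusTowers` (towers over CM fields, odd `r`). New
here are arbitrary groups of prime power order with several orbits, several functions on the same
field, and the second condition for groups with several orbits (so for fields of arbitrary degree).
The derivation of the conclusion from the absence of relations is a theorem of the starting files.

The proof. A relation between the Frobenius eigenvalues gives, by the `p`-adic valuations of its images
under all automorphisms, relations for each field separately since the fields are flipped:
`∑ i, ∑ φ, c i φ * u i (g φ) = 0` for all `g`, with integral functions `c i` with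
`c i (conj φ) = - c i φ`. If `c ≠ 0` we divide it by the greatest common divisor of its values.

In the first case we restrict the relations to representatives of the pairs of conjugate
embeddings (the restricted relations are still true, as the two halves of the sum are equal), and
reduce them modulo `r`. So the space of the odd functions modulo `r` with all the relations is not
zero. Its number of elements is a power of `r`, the group `H` acts on it through a group of `r`-power
order, so it contains a nonzero function which is invariant under `H`, a contradiction.

In the second case all the relations are the same modulo `2`, since all values of `u` are odd. But the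
differences of two of the restricted relations can be divided by `2`: so modulo `2` we have
`∑ c φ = 0`, and `∑ c φ = 0` where the sum is only over those pairs of conjugate embeddings for which
`u (g φ)` and `u φ` are different modulo `4`. The space of the functions modulo `2` with these relations
is stable under the Galois group. So it contains a nonzero function `b` which is invariant under a Sylow
2-subgroup `P`. Let `B` be the set of the embeddings with `b = 1`, and let `y` be the product of the
numbers `φ (ε)`, for all `φ` in `B` with `u φ = 1` modulo `4`. Then `B` consists of an even number of
pairs, `y ^ 2` is the product of the numbers `φ (ε)`, `φ ∈ B`, and the relations for `g ∈ P` say that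
`y` is invariant under `P`. So the degree of `y` is odd, a contradiction. In the second part `P` acts
trivially on the embeddings of `R`, and transitively on the embeddings over each of them, so `B`
consists of all the embeddings over a set `S`.
-/

set_option autoImplicit false

namespace Pool.Agent.Results.MP_60ec62_ag.NondegenerateSlopes

open NumberField Module Pool.Agent.W495.TA Run7.h370.MR Run7.h370.TY Pool.Agent.W547.KB Pool.Agent.TH117.F5 Pool.Agent.R299.CRY

open scoped TensorProduct

/-- Both forms of the crystalline Tate conjecture for the abelian variety `Y`. -/
def CrystallineTate {p : ℕ} [Fact p.Prime] {ν : PadicAlgCl p ≃+* ℂ} (Y : RedAV p ν) : Prop :=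
  ∀ s : ℕ, 0 < s →
    ∀ (K₀ Ω V₀ : Type) [Field K₀] [CharZero K₀] [Field Ω] [IsAlgClosed Ω] [CharZero Ω]
      [Algebra K₀ Ω] [AddCommGroup V₀] [Module K₀ V₀] [FiniteDimensional K₀ V₀]
      (F₀ : V₀ →ₗ[K₀] V₀) (e : (Ω ⊗[K₀] V₀) ≃ₗ[Ω] TM Ω Y) (σ : K₀ ≃+* K₀) (Ψ : V₀ → V₀),
      IsCrystalline Y s F₀ e → IsSemilinearFrobenius (Y.a * s) σ Ψ F₀ →
        ∀ (m : ℕ) (Cyc : Set (V₀ [⋀^Fin (2 * m)]→ₗ[K₀] K₀)), (∀ c ∈ Cyc, IsFrobFixed p σ Ψ c) →
          ContainsAlg s F₀ e (Submodule.span K₀ Cyc) →
            ∀ f : V₀ [⋀^Fin (2 * m)]→ₗ[K₀] K₀,
              (IsTateCrys F₀ ((p ^ Y.a) ^ s) m f → f ∈ Submodule.span K₀ Cyc) ∧
                (IsFrobFixed p σ Ψ f → FixedSpan σ Cyc f)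

/-- **Both forms of the crystalline Tate conjecture are true for all abelian varieties whose slopes are
nondegenerate modulo a prime number, and for those with odd slope deviations in CM fields with
nonsquare norms.** -/
theorem result :
    (∀ (p : ℕ) [Fact p.Prime] (ν : PadicAlgCl p ≃+* ℂ) (κ : Type) [Fintype κ] (E : κ → Type)
      [∀ k, Field (E k)] [∀ k, NumberField (E k)] [∀ k, IsCMField (E k)] (I : κ → Type)
      [∀ k, Fintype (I k)] (u : ∀ k, I k → (E k →+* ℂ) → ℤ), FieldsFlipped E →
      (∀ k i φ, u k i (ComplexEmbedding.conjugate φ) = - u k i φ) → (∀ k, IsNondegenerate (u k)) →
        ∀ Y : RedAV p ν, OfSlopes u Y → CrystallineTate Y) ∧
    ∀ (R E : Type) [Field R] [NumberField R] [Field E] [NumberField E] [IsCMField E]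
      [Algebra R E], NonsquareNorms R E → NonsquareProducts E := by
  refine ⟨?_, fun R E _ _ _ _ _ _ h => nonsquareProducts_of_norms h⟩
  intro p _ ν κ _ E _ _ _ I _ u hE hodd hu Y hY s hs K₀ Ω V₀ _ _ _ _ _ _ _ _ _ F₀ e σ Ψ he hΨ m Cyc hC hA f
  exact Pool.Agent.R299.CRY2.main_elem (elementary_of_slopes hE hu hodd hY) (powers_self Y) s hs
    F₀ e he σ Ψ hΨ Cyc hC hA f

end Pool.Agent.Results.MP_60ec62_ag.NondegenerateSlopes
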