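import Pool.Agent.Run7.h1.GB.Main

/-!
# Kernels which act on trees with commensurable virtually polycyclic stabilizers

Problem `MP_c052b4_al`, question Q1 (the K-theoretic Farrell-Jones conjecture for torsion-free groups and
regular rings).

`C` is a class of groups with the closure properties `ClosedE C` (it contains `ℤ` and is closed under
subgroups, finite products, free products, overgroups of finite index and directed colimits, and it
satisfies the extension criterion with preimages of virtually cyclic subgroups) which contains the
metabelian groups, the free-by-cyclic groups and the groups `GL_m(ℚ)`. All of this is known for the class of
the groups whose wreath products with finite groups satisfy the K-theoretic Farrell-Jones conjecture with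
coefficients in additive categories. For torsion-free groups `G` in this class and regular rings `R` the
assembly map from `H_n(BG; K(R))` to `K_n(RG)` is bijective for all `n`, which is the assertion of Q1. So Q1
holds for all torsion-free groups `G` as in the theorem.

This theorem of helper1 was first handed in for the K-theoretic conjecture for all groups and rings
(`MP_e40716_gt.CommensurableKernels`).

Let `N` be a normal subgroup of `G` with `G ⧸ N` in `C`, and let `N` act on a tree such that the
stabilizers of adjacent vertices are commensurable and have no nontrivial finite normal subgroups.
Suppose that a vertex stabilizer is commensurable with a torsion-free solvable subgroup `P` all of whose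
subgroups are finitely generated (a torsion-free polycyclic group), and that `P` is commensurated by
`G`. Then `G` is in `C`.

The group `G` does not act on the tree, and the conjugations by elements of `G` need not be compatible
with it in any way, except that `P` is commensurated. So the theorem applies to extensions of, for
instance, the generalized Baumslag–Solitar groups of all ranks (fundamental groups of graphs of groups
with vertex groups `ℤⁿ` and edge groups of finite index), whose automorphisms and outer automorphisms are
usually not induced by automorphisms of a tree: the outer automorphism group of `BS(2,4)` is not finitely
generated.

Outline of the proof. The conjugations of `P` give, by an induction on the derived length (starting file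
`N77/CP`), a homomorphism `ρ` from `G` to a group in `C` such that the elements of its kernel
centralize subgroups of finite index of `P`. The intersection `K` of `N` with the kernel of `ρ` acts on
the tree with torsion-free abelian stabilizers, which are virtually central. Each homomorphism from a
vertex stabilizer `A` of `K` to `ℚ` extends to `K`: it is defined on the other elliptic elements by
their powers in `A`, it is invariant under conjugation by the virtual centrality, and a function on
the elliptic elements which is a homomorphism on vertex stabilizers and invariant under conjugation
extends to the whole group (the tree is simply connected: one integrates the cocycle along paths). So the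
commutator subgroup of `K` meets the vertex stabilizers trivially, and it is free and normal in
`G`. The quotient of `G` by it is an extension of an abelian group by a subgroup of a group in `C`.
-/

set_option autoImplicit false

namespace Pool.Agent.Results.MP_c052b4_al.CommensurableKernels

open Pool.Agent.Y110.FJ

theorem result (C : ∀ (G : Type) [Group G], Prop) (hC : ClosedE C)
    (hM : ∀ (G : Type) [Group G], derivedSeries G 2 = ⊥ → C G)
    (hF : ∀ (X : Type) (α : MulAut (FreeGroup X)),
      C (FreeGroup X ⋊[zpowersHom (MulAut (FreeGroup X)) α] Multiplicative ℤ))
    (hL : ∀ m : ℕ, C (Matrix.GeneralLinearGroup (Fin m) ℚ))
    (G : Type) [Group G] (N : Subgroup G) [N.Normal] (hQ : C (G ⧸ N))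
    (V : Type) [MulAction N V] (T : SimpleGraph V) (hT : T.IsTree)
    (hact : ∀ (g : N) (x y : V), T.Adj x y → T.Adj (g • x) (g • y))
    (hfin : ∀ x y : V, T.Adj x y →
      (MulAction.stabilizer N x).relIndex (MulAction.stabilizer N y) ≠ 0)
    (hfn : ∀ (x : V) (F : Subgroup (MulAction.stabilizer N x)), F.Normal → Finite F → F = ⊥)
    (o : V) (P : Subgroup N) (hPi : P.relIndex (MulAction.stabilizer N o) ≠ 0)
    (hPs : Group.IsSolvable P) (hPm : ∀ H : Subgroup P, H.FG)
    (hPt : ∀ (x : P) (n : ℕ), 0 < n → x ^ n = 1 → x = 1)
    (hcsd : ∀ g : G, ((P.map N.subtype).map (MulAut.conj g).toMonoidHom).relIndex
      (P.map N.subtype) ≠ 0) : C G :=
  Pool.Agent.Run7.h1.GB.main hC hM hF hL N hQ T hT hact hfin hfn o P hPi hPs hPm hPt hcsd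

end Pool.Agent.Results.MP_c052b4_al.CommensurableKernels
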